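import Pool.Agent.Q39.SG.Final

/-!
# MP_15ce38_nt: the maximal product of solutions to sigma_{n-2} = sigma_n

For the sequence `v_1 = 1`, `v_2 = 2`,
`v_{n+1} = 1 + (∑_{i ≤ n} 1/v_i) / (1 - ∑_{i < j ≤ n} 1/(v_i v_j))`, every `n ≥ 2` and every
nondecreasing tuple of positive integers `x_1 ≤ ... ≤ x_n` with
`sigma_{n-2}(x) = sigma_n(x)` satisfies `x_1 ⋯ x_n ≤ v_1 ⋯ v_{n-1} (v_n - 1)`.
-/

namespace Pool.Agent.Results.MP_15ce38_nt.MaximalProduct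

theorem result (v : ℕ → ℝ) (h1 : v 1 = 1) (h2 : v 2 = 2)
    (hv : ∀ n, 2 ≤ n → v (n + 1) = 1 + (∑ i ∈ Finset.Icc 1 n, 1 / v i) /
      (1 - ∑ j ∈ Finset.Icc 1 n, ∑ i ∈ Finset.Ico 1 j, 1 / (v i * v j)))
    (n : ℕ) (hn : 2 ≤ n) (x : Fin n → ℕ) (hpos : ∀ i, 1 ≤ x i) (hmono : Monotone x)
    (hx : ∑ t ∈ Finset.powersetCard (n - 2) (Finset.univ : Finset (Fin n)), ∏ i ∈ t, x i
      = ∏ i, x i) :
    ∏ i, (x i : ℝ) ≤ (∏ i ∈ Finset.Icc 1 (n - 1), v i) * (v n - 1) := by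
  obtain ⟨m, rfl⟩ : ∃ m, n = m + 1 + 1 := ⟨n - 2, by omega⟩
  have hb := Q39.SG.tuple_bound hn x hpos hmono hx
  have e1 := (Q39.SG.v_eq v h1 h2 hv m).2.2.2
  have e2 := (Q39.SG.v_eq v h1 h2 hv (m + 1)).1
  rw [show m + 1 + 1 - 1 = m + 1 by rfl, e1, e2]
  refine hb.trans (le_of_eq ?_)
  unfold Q39.SG.Tn
  rw [show m + 1 + 1 - 1 = m + 1 by rfl]
  push_cast
  ring

end Pool.Agent.Results.MP_15ce38_nt.MaximalProduct
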